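import Pool.Agent.Y999.HolderSets

set_option autoImplicit false

namespace Pool.Agent.Results.MP_93c42a_an.AllSetsAllConstants

universe u

/-- The closed unit ball of `X` has property (H): for every `α ∈ (0,1)` there is a self-map `T` of
the closed unit ball without fixed points, all of whose iterates `T^[n]`, `n ≥ 1`, satisfy
`‖T^[n] x - T^[n] y‖ ≤ ‖x - y‖ ^ α`, and whose minimal displacement is `0`. -/
def PropertyH (X : Type u) [NormedAddCommGroup X] [NormedSpace ℝ X] : Prop :=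
  ∀ α : ℝ, 0 < α → α < 1 → ∃ T : Metric.closedBall (0 : X) 1 → Metric.closedBall (0 : X) 1,
    (∀ n : ℕ, 1 ≤ n → ∀ x y : Metric.closedBall (0 : X) 1,
      ‖(T^[n] x : X) - (T^[n] y : X)‖ ≤ ‖(x : X) - (y : X)‖ ^ α) ∧
    (∀ x, T x ≠ x) ∧ (⨅ x : Metric.closedBall (0 : X) 1, ‖(x : X) - (T x : X)‖) = 0

/-- Let `X` be a real normed space, complete or not. (1) If `X` is infinite-dimensional, then for
every set `S` in `X`, every interior point `x₀` of `S`, all `α ∈ (0,1)` and all `lam, ρ > 0` there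
is a self-map `T` of `S` with values in the closed ball of radius `ρ` about `x₀`, without fixed
points, of minimal displacement `0`, with `T ∘ T ∘ T = T` and
`‖T^[n] x - T^[n] y‖ ≤ lam * ‖x - y‖ ^ α` for all `n ≥ 1`. (2) The closed unit ball of `X` has
property (H) if and only if `X` is infinite-dimensional. -/
theorem result (X : Type u) [NormedAddCommGroup X] [NormedSpace ℝ X] :
    (¬ FiniteDimensional ℝ X → ∀ (S : Set X) (x₀ : X), x₀ ∈ interior S →
      ∀ α lam ρ : ℝ, 0 < α → α < 1 → 0 < lam → 0 < ρ → ∃ T : S → S,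
        (∀ n : ℕ, 1 ≤ n → ∀ x y : S,
          ‖(T^[n] x : X) - (T^[n] y : X)‖ ≤ lam * ‖(x : X) - (y : X)‖ ^ α) ∧
        (∀ x, T (T (T x)) = T x) ∧ (∀ x, ‖(T x : X) - x₀‖ ≤ ρ) ∧
        (∀ x, T x ≠ x) ∧ (⨅ x : S, ‖(x : X) - (T x : X)‖) = 0) ∧
    (PropertyH X ↔ ¬ FiniteDimensional ℝ X) := by
  have h1 : ¬ FiniteDimensional ℝ X → ∀ (S : Set X) (x₀ : X), x₀ ∈ interior S →
      ∀ α lam ρ : ℝ, 0 < α → α < 1 → 0 < lam → 0 < ρ → ∃ T : S → S,
        (∀ n : ℕ, 1 ≤ n → ∀ x y : S,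
          ‖(T^[n] x : X) - (T^[n] y : X)‖ ≤ lam * ‖(x : X) - (y : X)‖ ^ α) ∧
        (∀ x, T (T (T x)) = T x) ∧ (∀ x, ‖(T x : X) - x₀‖ ≤ ρ) ∧
        (∀ x, T x ≠ x) ∧ (⨅ x : S, ‖(x : X) - (T x : X)‖) = 0 :=
    fun hX S x₀ hx α lam ρ h2 h3 h4 h5 =>
      Pool.Agent.Y999.HolderSets.exists_map hX S x₀ hx α lam ρ h2 h3 h4 h5
  refine ⟨h1, ?_, ?_⟩
  · intro h hfin
    obtain ⟨T, hT1, hT2, hT3⟩ := h (1 / 2) (by norm_num) (by norm_num)
    have hc : Continuous T := by
      rw [continuous_iff_continuousAt]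
      intro x
      rw [ContinuousAt, tendsto_iff_dist_tendsto_zero]
      have h5 : Continuous (fun y : Metric.closedBall (0 : X) 1 =>
          ‖(y : X) - (x : X)‖ ^ (1 / 2 : ℝ)) :=
        Continuous.rpow_const (by fun_prop) (fun _ => Or.inr (by norm_num))
      have h6 : Filter.Tendsto (fun y : Metric.closedBall (0 : X) 1 =>
          ‖(y : X) - (x : X)‖ ^ (1 / 2 : ℝ)) (nhds x) (nhds 0) := by
        have h7 := h5.tendsto x
        simpa using h7
      refine squeeze_zero (fun _ => dist_nonneg) (fun y => ?_) h6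
      have h4 := hT1 1 le_rfl y x
      rw [Function.iterate_one] at h4
      rw [Subtype.dist_eq, dist_eq_norm]
      exact h4
    obtain ⟨x, hx⟩ := Pool.Agent.Y999.HolderSets.fixed_of_finite T hc hT3
    exact hT2 x hx
  · intro hX α hα0 hα1
    obtain ⟨T, hT1, -, -, hT2, hT3⟩ := h1 hX (Metric.closedBall (0 : X) 1) 0
      (Metric.ball_subset_interior_closedBall (Metric.mem_ball_self one_pos)) α 1 1 hα0 hα1
      one_pos one_pos
    refine ⟨T, fun n hn x y => ?_, hT2, hT3⟩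
    have := hT1 n hn x y
    rwa [one_mul] at this

end Pool.Agent.Results.MP_93c42a_an.AllSetsAllConstants
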